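import Pool.Agent.X66.Core

/-!
# No three collinear points on the graph of an increasing integer sequence

`N(x) ≥ c (x / log x) ^ (2 / 3)` for all large `x`; in particular `N(x) / √x` is unbounded.

The sequence is `a_j = H j + ⌊j ^ 2 / (2 t)⌋ + X_j` with `0 ≤ X_j < H` chosen by the local lemma.
The curvature `1 / t` implies that only triples with `(j - i) (k - j) ≤ 2 t H` can be collinear.
-/

set_option autoImplicit false

namespace Pool.Agent.Results.MP_6d8139_co.LocalLemmaSequence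

open Filter Real

/-- `Good x n`: there are integers `0 < a 1 < ... < a n ≤ x` such that no three of the points
`(j, a j)`, `1 ≤ j ≤ n`, are collinear. -/
def Good (x : ℝ) (n : ℕ) : Prop :=
  ∃ a : ℕ → ℤ, (∀ j, 1 ≤ j → j ≤ n → 0 < a j ∧ (a j : ℝ) ≤ x) ∧
    (∀ i j, 1 ≤ i → i < j → j ≤ n → a i < a j) ∧
    (∀ i j k, 1 ≤ i → i < j → j < k → k ≤ n →
      ¬ Collinear ℝ ({((i : ℝ), (a i : ℝ)), ((j : ℝ), (a j : ℝ)), ((k : ℝ), (a k : ℝ))} :
        Set (ℝ × ℝ)))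

/-- `N x` is the largest `n ≥ 1` with `Good x n`. -/
noncomputable def N (x : ℝ) : ℕ := sSup {n : ℕ | 1 ≤ n ∧ Good x n}

theorem good_le (x : ℝ) (n : ℕ) (h : Good x n) (hn : 1 ≤ n) : (n : ℝ) ≤ x := by
  obtain ⟨a, h1, h2, -⟩ := h
  have key : ∀ j, 1 ≤ j → j ≤ n → (j : ℤ) ≤ a j := by
    intro j hj
    induction j, hj using Nat.le_induction with
    | base =>
        intro _
        have := (h1 1 le_rfl hn).1
        push_cast
        omega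
    | succ j hj ih =>
        intro hjn
        have h3 := ih (by omega)
        have h4 := h2 j (j + 1) hj (by omega) hjn
        push_cast
        omega
  have h3 := key n hn le_rfl
  have h4 := (h1 n hn le_rfl).2
  have h5 : ((n : ℤ) : ℝ) ≤ (a n : ℝ) := by exact_mod_cast h3
  calc (n : ℝ) = ((n : ℤ) : ℝ) := by norm_cast
    _ ≤ a n := h5
    _ ≤ x := h4

theorem le_N (x : ℝ) (n : ℕ) (hn : 1 ≤ n) (h : Good x n) : n ≤ N x := by
  refine le_csSup ⟨⌊x⌋₊, ?_⟩ ⟨hn, h⟩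
  rintro m ⟨hm, hg⟩
  exact Nat.le_floor (good_le x m hg hm)

theorem cross (i j k : ℝ) (a b c : ℝ)
    (h : Collinear ℝ ({(i, a), (j, b), (k, c)} : Set (ℝ × ℝ))) :
    (k - j) * a + (j - i) * c = (k - i) * b := by
  rw [collinear_iff_of_mem (p₀ := (i, a)) (by simp)] at h
  obtain ⟨v, hv⟩ := h
  obtain ⟨r, hr⟩ := hv (j, b) (by simp)
  obtain ⟨s, hs⟩ := hv (k, c) (by simp)
  simp only [vadd_eq_add, Prod.ext_iff, Prod.fst_add, Prod.snd_add, Prod.smul_fst, Prod.smul_snd,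
    smul_eq_mul] at hr hs
  obtain ⟨r1, r2⟩ := hr
  obtain ⟨s1, s2⟩ := hs
  rw [r1, r2, s1, s2]
  ring

open Pool.Agent.X66.NTL in
theorem good_core' (l t s H : ℕ) (hl : 1 ≤ l) (ht : 1 ≤ t) (hs : s = 600 * l * t)
    (hH : H = 180000 * l ^ 2 * t) (f : Fin (s ^ 2) → Fin H)
    (hf : ∀ e, ¬ A H t (s ^ 2) (s ^ 2) e f) :
    Good (900 * l * (s : ℝ) ^ 3) (s ^ 2) := by
  have hs0 : 1 ≤ s := by rw [hs]; exact Nat.mul_pos (Nat.mul_pos (by norm_num) hl) ht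
  have hHs : H = 300 * l * s := by rw [hH, hs]; ring
  have hTH : 2 * t * H = s ^ 2 := by rw [hH, hs]; ring
  have hH0 : 0 < H := by rw [hH]; positivity
  have ht2 : 0 < 2 * t := by omega
  -- the sequence on `0, ..., s ^ 2 - 1`
  set b : ℕ → ℕ := fun j => if h : j < s ^ 2 then val H t (s ^ 2) f ⟨j, h⟩ else 0 with hb
  have hbv : ∀ j (h : j < s ^ 2), b j = H * (j + 1) + j ^ 2 / (2 * t) + (f ⟨j, h⟩ : ℕ) := by
    intro j h
    rw [hb]
    simp only [h, dif_pos, val]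
  have hpos : ∀ j, j < s ^ 2 → 0 < b j := by
    intro j h
    rw [hbv j h]
    have : 0 < H * (j + 1) := Nat.mul_pos hH0 (by omega)
    exact Nat.add_pos_left (Nat.add_pos_left this _) _
  have hmono : ∀ i j, i < j → j < s ^ 2 → b i < b j := by
    intro i j hij hj
    rw [hbv i (by omega), hbv j hj]
    have h1 : i ^ 2 / (2 * t) ≤ j ^ 2 / (2 * t) :=
      Nat.div_le_div_right (Nat.pow_le_pow_left hij.le 2)
    have h2 : H * (i + 1) + H ≤ H * (j + 1) := by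
      have : H * (i + 1) + H = H * (i + 2) := by ring
      rw [this]
      exact Nat.mul_le_mul_left _ (by omega)
    have h3 := (f ⟨i, by omega⟩).2
    omega
  have hup : ∀ j, j < s ^ 2 → (b j : ℝ) ≤ 900 * l * (s : ℝ) ^ 3 := by
    intro j hj
    have h1 : b j ≤ H * (s ^ 2 + 1) + (s ^ 2) ^ 2 / (2 * t) := by
      rw [hbv j hj]
      have h1 : j ^ 2 / (2 * t) ≤ (s ^ 2) ^ 2 / (2 * t) :=
        Nat.div_le_div_right (Nat.pow_le_pow_left hj.le 2)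
      have h2 : H * (j + 1) + H ≤ H * (s ^ 2 + 1) := by
        have : H * (j + 1) + H = H * (j + 2) := by ring
        rw [this]
        exact Nat.mul_le_mul_left _ (by omega)
      have h3 := (f ⟨j, hj⟩).2
      omega
    have h2 : (s ^ 2) ^ 2 / (2 * t) = s ^ 2 * H := by
      have : (s ^ 2) ^ 2 = (s ^ 2 * H) * (2 * t) := by rw [← hTH]; ring
      rw [this, Nat.mul_div_cancel _ ht2]
    rw [h2] at h1
    have h3 : H * (s ^ 2 + 1) + s ^ 2 * H ≤ 900 * l * s ^ 3 := by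
      rw [hHs]
      have e1 : 300 * l * s * (s ^ 2 + 1) + s ^ 2 * (300 * l * s) = 600 * l * s ^ 3 + 300 * l * s := by
        ring
      rw [e1]
      have e2 : 300 * l * s ≤ 300 * l * s ^ 3 := by
        apply Nat.mul_le_mul_left
        calc s = s ^ 1 := (pow_one s).symm
          _ ≤ s ^ 3 := Nat.pow_le_pow_right hs0 (by norm_num)
      have e3 : 900 * l * s ^ 3 = 600 * l * s ^ 3 + 300 * l * s ^ 3 := by ring
      omega
    exact_mod_cast h1.trans h3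
  have hcol : ∀ i j k, i < j → j < k → k < s ^ 2 →
      ((k : ℝ) - j) * b i + (j - i) * b k ≠ (k - i) * b j := by
    intro i j k hij hjk hk h
    have hi : i < s ^ 2 := by omega
    have hj : j < s ^ 2 := by omega
    have hbi := hbv i hi
    have hbj := hbv j hj
    have hbk := hbv k hk
    have hfi := (f ⟨i, hi⟩).2
    have hfk := (f ⟨k, hk⟩).2
    have hfj := (f ⟨j, hj⟩).2
    -- real versions
    have qi := Nat.div_add_mod (i ^ 2) (2 * t)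
    have qj := Nat.div_add_mod (j ^ 2) (2 * t)
    have qk := Nat.div_add_mod (k ^ 2) (2 * t)
    have mi := Nat.mod_lt (i ^ 2) ht2
    have mk := Nat.mod_lt (k ^ 2) ht2
    obtain ⟨Qi, hQi⟩ : ∃ Q, Q = i ^ 2 / (2 * t) := ⟨_, rfl⟩
    obtain ⟨Qj, hQj⟩ : ∃ Q, Q = j ^ 2 / (2 * t) := ⟨_, rfl⟩
    obtain ⟨Qk, hQk⟩ : ∃ Q, Q = k ^ 2 / (2 * t) := ⟨_, rfl⟩
    rw [← hQi] at hbi qi
    rw [← hQj] at hbj qj
    rw [← hQk] at hbk qk
    have i1 : i ^ 2 + 1 ≤ 2 * t * Qi + 2 * t := by omega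
    have k1 : k ^ 2 + 1 ≤ 2 * t * Qk + 2 * t := by omega
    have j1 : 2 * t * Qj ≤ j ^ 2 := by omega
    have i1' : (i : ℝ) ^ 2 + 1 ≤ 2 * t * Qi + 2 * t := by exact_mod_cast i1
    have k1' : (k : ℝ) ^ 2 + 1 ≤ 2 * t * Qk + 2 * t := by exact_mod_cast k1
    have j1' : (2 : ℝ) * t * Qj ≤ (j : ℝ) ^ 2 := by exact_mod_cast j1
    have hTH' : 2 * (t : ℝ) * H = (s : ℝ) ^ 2 := by exact_mod_cast hTH
    have fi0 : (0 : ℝ) ≤ ((f ⟨i, hi⟩ : ℕ) : ℝ) := Nat.cast_nonneg _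
    have fk0 : (0 : ℝ) ≤ ((f ⟨k, hk⟩ : ℕ) : ℝ) := Nat.cast_nonneg _
    have fj1 : ((f ⟨j, hj⟩ : ℕ) : ℝ) + 1 ≤ H := by exact_mod_cast hfj
    have bi' : (b i : ℝ) = H * (i + 1) + Qi + ((f ⟨i, hi⟩ : ℕ) : ℝ) := by exact_mod_cast hbi
    have bj' : (b j : ℝ) = H * (j + 1) + Qj + ((f ⟨j, hj⟩ : ℕ) : ℝ) := by exact_mod_cast hbj
    have bk' : (b k : ℝ) = H * (k + 1) + Qk + ((f ⟨k, hk⟩ : ℕ) : ℝ) := by exact_mod_cast hbk
    have hij' : (0 : ℝ) < (j : ℝ) - i := by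
      have : (i : ℝ) < j := by exact_mod_cast hij
      linarith
    have hjk' : (0 : ℝ) < (k : ℝ) - j := by
      have : (j : ℝ) < k := by exact_mod_cast hjk
      linarith
    have ht0 : (0 : ℝ) < t := by exact_mod_cast (by omega : 0 < t)
    -- the product of the differences is small
    have hprod : ((j : ℝ) - i) * ((k : ℝ) - j) ≤ (s : ℝ) ^ 2 := by
      by_contra hc
      push Not at hc
      obtain ⟨u, hu⟩ : ∃ u : ℝ, u = (j : ℝ) - i := ⟨_, rfl⟩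
      obtain ⟨v, hv⟩ : ∃ v : ℝ, v = (k : ℝ) - j := ⟨_, rfl⟩
      have hk' : (k : ℝ) = j + v := by linarith
      have hi' : (i : ℝ) = j - u := by linarith
      rw [← hu] at hij' hc
      rw [← hv] at hjk' hc
      rw [bi', bj', bk', hk', hi'] at h
      rw [hi'] at i1'
      rw [hk'] at k1'
      have h2 : v * ((j - u) ^ 2 + 1 - 2 * t) + u * (((j : ℝ) + v) ^ 2 + 1 - 2 * t) -
          (u + v) * (j : ℝ) ^ 2 - 2 * t * (u + v) * (H - 1) ≤ 0 := by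
        have a1 : v * ((j - u) ^ 2 + 1 - 2 * t) ≤ v * (2 * t * Qi) :=
          mul_le_mul_of_nonneg_left (by linarith) hjk'.le
        have a2 : u * (((j : ℝ) + v) ^ 2 + 1 - 2 * t) ≤ u * (2 * t * Qk) :=
          mul_le_mul_of_nonneg_left (by linarith) hij'.le
        have a3 : (u + v) * (2 * t * Qj) ≤ (u + v) * (j : ℝ) ^ 2 :=
          mul_le_mul_of_nonneg_left j1' (by linarith)
        have a4 : (2 * t * (u + v)) * ((f ⟨j, hj⟩ : ℕ) : ℝ) ≤ (2 * t * (u + v)) * (H - 1) :=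
          mul_le_mul_of_nonneg_left (by linarith) (by positivity)
        have a5 : 0 ≤ (2 * t * v) * ((f ⟨i, hi⟩ : ℕ) : ℝ) := by positivity
        have a6 : 0 ≤ (2 * t * u) * ((f ⟨k, hk⟩ : ℕ) : ℝ) := by positivity
        have h3 : (2 * t : ℝ) * ((j + v - j) * (H * (j - u + 1) + Qi + ((f ⟨i, hi⟩ : ℕ) : ℝ)) +
          (j - (j - u)) * (H * (j + v + 1) + Qk + ((f ⟨k, hk⟩ : ℕ) : ℝ))) =
          (2 * t) * ((j + v - (j - u)) * (H * (j + 1) + Qj + ((f ⟨j, hj⟩ : ℕ) : ℝ))) := by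
          rw [h]
        linarith [a1, a2, a3, a4, a5, a6, h3]
      have h4 : v * ((j - u) ^ 2 + 1 - 2 * t) + u * (((j : ℝ) + v) ^ 2 + 1 - 2 * t) -
          (u + v) * (j : ℝ) ^ 2 - 2 * t * (u + v) * (H - 1) =
          (u + v) * (u * v + 1 - 2 * t * H) := by ring
      rw [h4, hTH'] at h2
      have h5 : 0 < (u + v) * (u * v + 1 - (s : ℝ) ^ 2) := by
        apply mul_pos (by linarith)
        linarith
      linarith
    have hprod' : (j - i) * (k - j) ≤ s ^ 2 := by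
      have e1 : ((j - i : ℕ) : ℝ) = (j : ℝ) - i := by rw [Nat.cast_sub hij.le]
      have e2 : ((k - j : ℕ) : ℝ) = (k : ℝ) - j := by rw [Nat.cast_sub hjk.le]
      rw [← e1, ← e2] at hprod
      exact_mod_cast hprod
    refine hf (⟨i, hi⟩, ⟨j, hj⟩, ⟨k, hk⟩) ⟨⟨hij, hjk, hprod'⟩, ?_⟩
    show (k - j) * val H t (s ^ 2) f ⟨i, hi⟩ + (j - i) * val H t (s ^ 2) f ⟨k, hk⟩ =
      (k - i) * val H t (s ^ 2) f ⟨j, hj⟩
    have v1 : val H t (s ^ 2) f ⟨i, hi⟩ = b i := by rw [hb]; simp only [hi, dif_pos]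
    have v2 : val H t (s ^ 2) f ⟨j, hj⟩ = b j := by rw [hb]; simp only [hj, dif_pos]
    have v3 : val H t (s ^ 2) f ⟨k, hk⟩ = b k := by rw [hb]; simp only [hk, dif_pos]
    rw [v1, v2, v3]
    have e1 : ((j - i : ℕ) : ℝ) = (j : ℝ) - i := by rw [Nat.cast_sub hij.le]
    have e2 : ((k - j : ℕ) : ℝ) = (k : ℝ) - j := by rw [Nat.cast_sub hjk.le]
    have e3 : ((k - i : ℕ) : ℝ) = (k : ℝ) - i := by rw [Nat.cast_sub (hij.trans hjk).le]
    rw [← e1, ← e2, ← e3] at h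
    exact_mod_cast h
  refine ⟨fun j => (b (j - 1) : ℤ), ?_, ?_, ?_⟩
  · intro j h1 h2
    have g1 : (0 : ℤ) < (b (j - 1) : ℤ) := by exact_mod_cast hpos (j - 1) (by omega)
    have g2 : (((b (j - 1) : ℕ) : ℤ) : ℝ) ≤ 900 * l * (s : ℝ) ^ 3 := by
      have := hup (j - 1) (by omega)
      simpa using this
    exact ⟨g1, g2⟩
  · intro i j h1 h2 h3
    have g1 : (b (i - 1) : ℤ) < (b (j - 1) : ℤ) := by
      exact_mod_cast hmono (i - 1) (j - 1) (by omega) (by omega)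
    exact g1
  · intro i j k h1 h2 h3 h4 hc
    have h5 := cross _ _ _ _ _ _ hc
    refine hcol (i - 1) (j - 1) (k - 1) (by omega) (by omega) (by omega) ?_
    have e1 : ((i - 1 : ℕ) : ℝ) = (i : ℝ) - 1 := by rw [Nat.cast_sub h1]; simp
    have e2 : ((j - 1 : ℕ) : ℝ) = (j : ℝ) - 1 := by rw [Nat.cast_sub (by omega)]; simp
    have e3 : ((k - 1 : ℕ) : ℝ) = (k : ℝ) - 1 := by rw [Nat.cast_sub (by omega)]; simp
    rw [e1, e2, e3]
    push_cast at h5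
    linarith

theorem good_core (l t : ℕ) (hl : 1 ≤ l) (ht : 1 ≤ t)
    (hlog : 1 + Real.log (((600 * l * t) ^ 2 : ℕ) : ℝ) ≤ l) :
    Good (900 * l * (((600 * l * t : ℕ)) : ℝ) ^ 3) ((600 * l * t) ^ 2) := by
  obtain ⟨f, hf⟩ := Pool.Agent.X66.NTL.core l t hl ht hlog
  exact good_core' l t (600 * l * t) (180000 * l ^ 2 * t) hl ht rfl rfl f hf

theorem good_mono (x y : ℝ) (n : ℕ) (hxy : x ≤ y) (h : Good x n) : Good y n := by
  obtain ⟨a, h1, h2, h3⟩ := h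
  exact ⟨a, fun j h4 h5 => ⟨(h1 j h4 h5).1, (h1 j h4 h5).2.trans hxy⟩, h2, h3⟩

/-- The lower bound for large `x`. -/
theorem main : ∃ c : ℝ, 0 < c ∧ ∀ᶠ x : ℝ in atTop, c * (x / Real.log x) ^ (2 / 3 : ℝ) ≤ N x := by
  obtain ⟨K, hK⟩ : ∃ K : ℝ, K = 900 * 600 ^ 3 := ⟨_, rfl⟩
  have hK0 : 0 < K := by rw [hK]; norm_num
  refine ⟨90000 / (K ^ (2 / 3 : ℝ) * 3 ^ (2 / 3 : ℝ)), by positivity, ?_⟩
  have e1 : ∀ᶠ x : ℝ in atTop, (3 * Real.log x) ^ 4 * K ≤ x := by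
    have h1 : (fun x : ℝ => Real.log x ^ (4 : ℝ)) =o[atTop] fun x : ℝ => x ^ (1 : ℝ) :=
      isLittleO_log_rpow_rpow_atTop 4 one_pos
    have h2 := h1.bound (c := 1 / (81 * K)) (by positivity)
    filter_upwards [h2, eventually_ge_atTop 1] with x hx hx1
    have hl : 0 ≤ Real.log x := Real.log_nonneg hx1
    rw [Real.rpow_one, Real.norm_of_nonneg (by positivity), Real.norm_of_nonneg (by linarith)] at hx
    have h3 : Real.log x ^ (4 : ℝ) = Real.log x ^ 4 := by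
      rw [← Real.rpow_natCast]; norm_num
    rw [h3] at hx
    have h4 : (3 * Real.log x) ^ 4 * K = 81 * K * Real.log x ^ 4 := by ring
    rw [h4]
    calc 81 * K * Real.log x ^ 4 ≤ 81 * K * (1 / (81 * K) * x) := by gcongr
      _ = x := by field_simp
  filter_upwards [e1, Real.tendsto_log_atTop.eventually_ge_atTop 1, eventually_ge_atTop 1] with
    x hx hlog hx1
  obtain ⟨l, hl⟩ : ∃ l, l = ⌈1 + Real.log x⌉₊ := ⟨_, rfl⟩
  have hl1 : 1 + Real.log x ≤ l := by rw [hl]; exact Nat.le_ceil _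
  have hl2 : (l : ℝ) ≤ 3 * Real.log x := by
    have : (l : ℝ) < 1 + Real.log x + 1 := by rw [hl]; exact Nat.ceil_lt_add_one (by linarith)
    linarith
  have hl0 : (0 : ℝ) < l := by linarith
  have hl3 : 1 ≤ l := by
    have : (0 : ℝ) < l := hl0
    exact_mod_cast this
  obtain ⟨y, hy⟩ : ∃ y : ℝ, y = (x / (K * l ^ 4)) ^ (1 / 3 : ℝ) := ⟨_, rfl⟩
  have hx0 : 0 < x := by linarith
  have hbase : 1 ≤ x / (K * l ^ 4) := by
    rw [le_div_iff₀ (by positivity), one_mul]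
    calc K * (l : ℝ) ^ 4 ≤ K * (3 * Real.log x) ^ 4 := by gcongr
      _ ≤ x := by linarith
  have hy1 : 1 ≤ y := by
    rw [hy]; exact Real.one_le_rpow hbase (by norm_num)
  have hy3 : y ^ 3 = x / (K * l ^ 4) := by
    rw [hy, ← Real.rpow_natCast, ← Real.rpow_mul (by linarith)]
    norm_num
  obtain ⟨t, ht⟩ : ∃ t, t = ⌊y⌋₊ := ⟨_, rfl⟩
  have ht1 : 1 ≤ t := by rw [ht]; exact Nat.le_floor (by exact_mod_cast hy1)
  have ht2 : (t : ℝ) ≤ y := by rw [ht]; exact Nat.floor_le (by linarith)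
  have ht3 : y ≤ 2 * t := by
    have h1 : y < t + 1 := by rw [ht]; exact Nat.lt_floor_add_one _
    have h2 : (1 : ℝ) ≤ t := by exact_mod_cast ht1
    linarith
  have ht0 : (1 : ℝ) ≤ t := by exact_mod_cast ht1
  have hbound : 900 * (l : ℝ) * (((600 * l * t : ℕ)) : ℝ) ^ 3 ≤ x := by
    push_cast
    calc 900 * (l : ℝ) * (600 * l * t) ^ 3 = K * l ^ 4 * (t : ℝ) ^ 3 := by rw [hK]; ring
      _ ≤ K * l ^ 4 * y ^ 3 := by gcongr
      _ = x := by rw [hy3]; field_simp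
  have hl1' : (1 : ℝ) ≤ l := by linarith
  have hs1 : (1 : ℝ) ≤ ((600 * l * t : ℕ) : ℝ) := by
    push_cast
    nlinarith
  have hlog' : 1 + Real.log (((600 * l * t) ^ 2 : ℕ) : ℝ) ≤ l := by
    refine le_trans ?_ hl1
    have hle : (((600 * l * t) ^ 2 : ℕ) : ℝ) ≤ x := by
      calc (((600 * l * t) ^ 2 : ℕ) : ℝ) = ((600 * l * t : ℕ) : ℝ) ^ 2 := by push_cast; ring
        _ ≤ ((600 * l * t : ℕ) : ℝ) ^ 3 := pow_le_pow_right₀ hs1 (by norm_num)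
        _ = 1 * ((600 * l * t : ℕ) : ℝ) ^ 3 := (one_mul _).symm
        _ ≤ 900 * (l : ℝ) * ((600 * l * t : ℕ) : ℝ) ^ 3 := by gcongr; nlinarith
        _ ≤ x := hbound
    have hpos : (0 : ℝ) < (((600 * l * t) ^ 2 : ℕ) : ℝ) := by push_cast; positivity
    have := Real.log_le_log hpos hle
    linarith
  have hgood := good_mono _ _ _ hbound (good_core l t hl3 ht1 hlog')
  have hN := le_N x _ (by
    have : 0 < 600 * l * t := by positivity
    exact Nat.pow_pos this) hgood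
  have hN' : (((600 * l * t) ^ 2 : ℕ) : ℝ) ≤ N x := by exact_mod_cast hN
  refine le_trans ?_ hN'
  push_cast
  have hlogpos : 0 < Real.log x := by linarith
  -- compare
  have h1 : y ^ 2 = x ^ (2 / 3 : ℝ) / (K ^ (2 / 3 : ℝ) * (l : ℝ) ^ (8 / 3 : ℝ)) := by
    rw [hy, ← Real.rpow_natCast, ← Real.rpow_mul (by linarith), Real.div_rpow hx0.le (by positivity),
      Real.mul_rpow hK0.le (by positivity), ← Real.rpow_natCast (l : ℝ) 4, ← Real.rpow_mul hl0.le]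
    norm_num
  have h2 : (l : ℝ) ^ (2 / 3 : ℝ) ≤ 3 ^ (2 / 3 : ℝ) * Real.log x ^ (2 / 3 : ℝ) := by
    rw [← Real.mul_rpow (by norm_num) hlogpos.le]
    exact Real.rpow_le_rpow hl0.le hl2 (by norm_num)
  have h3 : (l : ℝ) ^ (8 / 3 : ℝ) = (l : ℝ) ^ 2 * (l : ℝ) ^ (2 / 3 : ℝ) := by
    rw [← Real.rpow_natCast, ← Real.rpow_add hl0]; norm_num
  have h4 : 90000 / (K ^ (2 / 3 : ℝ) * 3 ^ (2 / 3 : ℝ)) * (x / Real.log x) ^ (2 / 3 : ℝ) ≤
      90000 * (l : ℝ) ^ 2 * y ^ 2 := by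
    rw [h1, h3, Real.div_rpow hx0.le hlogpos.le]
    have hA : 0 < x ^ (2 / 3 : ℝ) := by positivity
    have hB : 0 < K ^ (2 / 3 : ℝ) := by positivity
    have hC : 0 < Real.log x ^ (2 / 3 : ℝ) := by positivity
    have hD : 0 < (3 : ℝ) ^ (2 / 3 : ℝ) := by positivity
    have hE : 0 < (l : ℝ) ^ (2 / 3 : ℝ) := by positivity
    have e2 : 90000 * (l : ℝ) ^ 2 * (x ^ (2 / 3 : ℝ) / (K ^ (2 / 3 : ℝ) *
        ((l : ℝ) ^ 2 * (l : ℝ) ^ (2 / 3 : ℝ)))) =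
        90000 * x ^ (2 / 3 : ℝ) / (K ^ (2 / 3 : ℝ) * (l : ℝ) ^ (2 / 3 : ℝ)) := by
      field_simp
    have e3 : 90000 / (K ^ (2 / 3 : ℝ) * 3 ^ (2 / 3 : ℝ)) *
        (x ^ (2 / 3 : ℝ) / Real.log x ^ (2 / 3 : ℝ)) =
        90000 * x ^ (2 / 3 : ℝ) / (K ^ (2 / 3 : ℝ) * (3 ^ (2 / 3 : ℝ) * Real.log x ^ (2 / 3 : ℝ))) := by
      field_simp
    rw [e2, e3]
    gcongr
  refine h4.trans ?_
  calc 90000 * (l : ℝ) ^ 2 * y ^ 2 ≤ 90000 * (l : ℝ) ^ 2 * (2 * (t : ℝ)) ^ 2 := by gcongr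
    _ = (600 * (l : ℝ) * (t : ℝ)) ^ 2 := by ring

/-- `N(x) ≥ c (x / log x) ^ (2 / 3)` for all large `x`, and no constant `C` satisfies
`N(x) ≤ C √x` for all `x ≥ 1`. -/
theorem result :
    (∃ c : ℝ, 0 < c ∧ ∀ᶠ x : ℝ in atTop, c * (x / Real.log x) ^ (2 / 3 : ℝ) ≤ N x) ∧
    ¬ ∃ C : ℝ, ∀ x : ℝ, 1 ≤ x → (N x : ℝ) ≤ C * √x := by
  refine ⟨main, ?_⟩
  rintro ⟨C, hC⟩
  obtain ⟨c, hc, h⟩ := main
  have h1 : (fun x : ℝ => Real.log x ^ (2 / 3 : ℝ)) =o[atTop] fun x : ℝ => x ^ (1 / 6 : ℝ) :=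
    isLittleO_log_rpow_rpow_atTop (2 / 3) (by norm_num)
  have h2 := h1.bound (c := c / (|C| + 1)) (by positivity)
  obtain ⟨x, hx1, hx2, hx3, hx4⟩ := (h.and (h2.and ((eventually_ge_atTop 1).and
    (Real.tendsto_log_atTop.eventually_ge_atTop 1)))).exists
  have h3 := hC x hx3
  have hx0 : 0 < x := by linarith
  have hl0 : 0 < Real.log x := by linarith
  rw [Real.norm_of_nonneg (by positivity), Real.norm_of_nonneg (by positivity)] at hx2
  have h4 : c * (x / Real.log x) ^ (2 / 3 : ℝ) ≤ |C| * √x :=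
    (hx1.trans h3).trans (mul_le_mul_of_nonneg_right (le_abs_self C) (Real.sqrt_nonneg x))
  rw [Real.div_rpow hx0.le hl0.le, Real.sqrt_eq_rpow] at h4
  have hL : 0 < Real.log x ^ (2 / 3 : ℝ) := by positivity
  have h5 : c * x ^ (2 / 3 : ℝ) ≤ |C| * x ^ (1 / 2 : ℝ) * Real.log x ^ (2 / 3 : ℝ) := by
    have : c * (x ^ (2 / 3 : ℝ) / Real.log x ^ (2 / 3 : ℝ)) * Real.log x ^ (2 / 3 : ℝ) =
        c * x ^ (2 / 3 : ℝ) := by field_simp
    rw [← this]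
    gcongr
  have h6 : x ^ (2 / 3 : ℝ) = x ^ (1 / 2 : ℝ) * x ^ (1 / 6 : ℝ) := by
    rw [← Real.rpow_add hx0]; norm_num
  rw [h6] at h5
  have h7 : |C| * x ^ (1 / 2 : ℝ) * Real.log x ^ (2 / 3 : ℝ) ≤
      |C| * x ^ (1 / 2 : ℝ) * (c / (|C| + 1) * x ^ (1 / 6 : ℝ)) := by gcongr
  have h8 : 0 < x ^ (1 / 2 : ℝ) * x ^ (1 / 6 : ℝ) := by positivity
  have h9 : |C| * x ^ (1 / 2 : ℝ) * (c / (|C| + 1) * x ^ (1 / 6 : ℝ)) =
      (|C| / (|C| + 1)) * c * (x ^ (1 / 2 : ℝ) * x ^ (1 / 6 : ℝ)) := by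
    field_simp
  have h10 : |C| / (|C| + 1) < 1 := by
    rw [div_lt_one (by positivity)]; linarith
  have h11 : (|C| / (|C| + 1)) * c * (x ^ (1 / 2 : ℝ) * x ^ (1 / 6 : ℝ)) <
      c * (x ^ (1 / 2 : ℝ) * x ^ (1 / 6 : ℝ)) := by
    have : (|C| / (|C| + 1)) * c < c := by nlinarith
    exact mul_lt_mul_of_pos_right this h8
  linarith

end Pool.Agent.Results.MP_6d8139_co.LocalLemmaSequence
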